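import Mathlib

set_option maxHeartbeats 400000

namespace Pool.Agent.Results.MP_7bc96b_al.Full

open Submodule

lemma loc (p : ℕ) (hp : p.Prime) (k : ℕ) : ∀ S : Set (ℕ → ℤ), (∀ s ∈ S, ∀ i ≥ k, s i = 0) →
    ∃ t : Finset (ℕ → ℤ), ↑t ⊆ S ∧ t.card ≤ k ∧ ∃ n : ℤ, ¬ (p : ℤ) ∣ n ∧
      ∀ s ∈ S, n • s ∈ span ℤ (t : Set (ℕ → ℤ)) := by
  classical
  have pp : Prime (p : ℤ) := Nat.prime_iff_prime_int.1 hp
  induction k with
  | zero =>
    exact fun S h => ⟨∅, by simp, le_rfl, 1, pp.not_dvd_one, fun s hs => by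
      rw [show s = 0 from funext fun i => h s hs i (Nat.zero_le _)]; simp⟩
  | succ k ih =>
    intro S h
    by_cases h0 : ∀ s ∈ S, s k = 0
    · obtain ⟨t, a, b, c⟩ := ih S fun s hs i hi => by
        rcases eq_or_lt_of_le hi with rfl | hi
        exacts [h0 s hs, h s hs i hi]
      exact ⟨t, a, b.trans (Nat.le_succ _), c⟩
    have ex : ∃ e : ℕ, ∃ s ∈ S, ¬ (p : ℤ) ^ (e + 1) ∣ s k := by
      push Not at h0
      obtain ⟨s, hs, h1⟩ := h0
      obtain ⟨e, he⟩ := FiniteMultiplicity.of_prime_left pp h1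
      exact ⟨e, s, hs, he⟩
    obtain ⟨s0, hs0, h1⟩ := Nat.find_spec ex
    have h2 : ∀ s ∈ S, ∃ q, s k = (p : ℤ) ^ Nat.find ex * q := fun s hs => by
      rcases h3 : Nat.find ex with _ | e
      · simp
      · by_contra h4
        exact Nat.find_min ex (m := e) (by omega) ⟨s, hs, h4⟩
    choose! q hq using h2
    let ψ : (ℕ → ℤ) → ℕ → ℤ := fun s => q s0 • s - q s • s0
    obtain ⟨t, a, b, n, c, d⟩ := ih (ψ '' S) (by
      rintro _ ⟨s, hs, rfl⟩ i hi
      change q s0 * s i - q s * s0 i = 0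
      rcases eq_or_lt_of_le hi with rfl | hi
      · rw [hq s hs, hq s0 hs0]; ring
      · rw [h s hs i hi, h s0 hs0 i hi]; ring)
    obtain ⟨t', a', rfl⟩ := Finset.subset_set_image_iff.1 a
    obtain ⟨u, a'', e⟩ := Finset.exists_subset_injOn_image_eq_of_surjOn (f := ψ) (t' : Set _) (t'.image ψ)
      (by simp [Set.SurjOn])
    have m0 : s0 ∈ span ℤ ((insert s0 u : Finset _) : Set (ℕ → ℤ)) := subset_span (by simp)
    refine ⟨insert s0 u, by rw [Finset.coe_insert]; exact Set.insert_subset hs0 (a''.trans a'), ?_,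
      n * q s0, fun h5 => (pp.dvd_or_dvd h5).elim c fun h6 => h1 ?_, fun s hs => ?_⟩
    · rw [← e.2, Finset.card_image_of_injOn e.1] at b
      exact (Finset.card_insert_le _ _).trans (by omega)
    · rw [hq s0 hs0, pow_succ]; exact mul_dvd_mul_left _ h6
    · have : n • ψ s ∈ span ℤ ((insert s0 u : Finset _) : Set (ℕ → ℤ)) := by
        refine span_le.2 ?_ (d _ ⟨s, hs, rfl⟩)
        rw [← e.2, Finset.coe_image]
        rintro _ ⟨x, hx, rfl⟩
        exact sub_mem (smul_mem _ _ (subset_span (by simp [Finset.mem_coe.1 hx]))) (smul_mem _ _ m0)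
      convert add_mem this (smul_mem _ (n * q s) m0) using 1
      simp only [ψ]; module

variable {X : Type} [AddCommGroup X] {n : ℕ} (χ : Fin n → X)

/-- the monoid `B_I` of nonnegative relations supported in `I` -/
def B (I : Finset (Fin n)) : Set (Fin n → ℤ) :=
  {m | (∀ i, 0 ≤ m i) ∧ (∀ i ∉ I, m i = 0) ∧ ∑ i, m i • χ i = 0}

lemma car [Module.Finite ℤ X] (T : Finset (Fin n)) (k : ℕ) : ∀ U : Finset (Fin n), U.card ≤ k →
    Disjoint T U → ∀ m ∈ B χ (T ∪ U), (∀ i ∈ T, 0 < m i) → ∃ V ⊆ U, V.card ≤ Module.finrank ℤ X ∧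
      ∃ m ∈ B χ (T ∪ V), ∀ i ∈ T, 0 < m i := by
  induction k with
  | zero => exact fun U h _ m hm p => ⟨U, le_rfl, by omega, m, hm, p⟩
  | succ k ih =>
    intro U h hd m hm p
    by_cases li : LinearIndepOn ℤ χ U
    · exact ⟨U, le_rfl, by simpa using li.fintype_card_le_finrank, m, hm, p⟩
    have : ∃ c : Fin n → ℤ, ∑ i ∈ U, c i • χ i = 0 ∧ ∃ i ∈ U, 0 < c i := by
      obtain ⟨c, h1, i, hi, h2⟩ := not_linearIndepOn_finset_iff.1 li
      rcases lt_or_gt_of_ne h2 with h2 | h2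
      · exact ⟨-c, by simpa using h1, i, hi, by simpa using h2⟩
      · exact ⟨c, h1, i, hi, h2⟩
    obtain ⟨c, h1, i1, hi1, h2⟩ := this
    obtain ⟨j, hj, hmin⟩ := (U.filter fun i => 0 < c i).exists_min_image (fun i => (m i : ℚ) / c i)
      ⟨i1, by simp [hi1, h2]⟩
    rw [Finset.mem_filter] at hj
    obtain ⟨V, a, b⟩ := ih (U.erase j) (by rw [Finset.card_erase_of_mem hj.1]; omega)
      (hd.mono_right (U.erase_subset j)) (fun i => c j * m i - m j * if i ∈ U then c i else 0)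
      ⟨fun i => by
        have := mul_nonneg hj.2.le (hm.1 i)
        beta_reduce
        split_ifs with e
        · by_cases e' : 0 < c i
          · have := hmin i (by simp [e, e'])
            rw [div_le_div_iff₀ (by exact_mod_cast hj.2) (by exact_mod_cast e')] at this
            have : m j * c i ≤ m i * c j := by exact_mod_cast this
            linarith
          · nlinarith [hm.1 j]
        · simpa using this, fun i hi => by
        by_cases e : i = j
        · subst e; simp [hj.1, mul_comm]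
        · have : i ∉ T ∧ i ∉ U := by simpa [e] using hi
          simp [this.2, hm.2.1 i (by simpa using this)], by
        simp only [sub_smul, mul_smul, Finset.sum_sub_distrib, ← Finset.smul_sum, hm.2.2, ite_smul,
          zero_smul, Finset.sum_ite_mem, Finset.univ_inter, h1, smul_zero, sub_zero]⟩
      (fun i hi => by simpa [Finset.disjoint_left.1 hd hi] using mul_pos hj.2 (p i hi))
    exact ⟨V, a.trans (U.erase_subset j), b⟩

theorem result (X : Type) [AddCommGroup X] (r : ℕ) (v : Fin r → X) (hv : span ℤ (Set.range v) = ⊤)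
    (n : ℕ) (χ : Fin n → X) (I : Finset (Fin n)) :
    span ℤ (B χ I) = span ℤ {m | ∃ J ⊆ I, J.card ≤ 1 + Module.finrank ℤ X + r ∧ m ∈ B χ J} := by
  classical
  have : Module.Finite ℤ X := ⟨hv ▸ fg_span (Set.finite_range v)⟩
  refine le_antisymm (span_le.2 fun m hm => ?_) (span_mono ?_)
  swap
  · rintro m ⟨J, a, -, b⟩
    exact ⟨b.1, fun i hi => b.2.1 i fun h => hi (a h), b.2.2⟩
  set W := span ℤ {m | ∃ J ⊆ I, J.card ≤ 1 + Module.finrank ℤ X + r ∧ m ∈ B χ J}
  let L := Fintype.linearCombination ℤ χ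
  have D : ∀ T : Finset (Fin n), T.card ≤ r + 1 → (∀ i ∈ T, 0 < m i) → ∀ ρ : Fin n → ℤ,
      (∀ i ∉ T, ρ i = 0) → L ρ = 0 → ρ ∈ W := fun T hT p ρ h1 h2 => by
    have TI : T ⊆ I := fun i hi => by_contra fun e => (p i hi).ne' (hm.2.1 i e)
    obtain ⟨V, a, b, m', c, d⟩ := car χ T _ (I \ T) le_rfl Finset.disjoint_sdiff m
      (by rwa [Finset.union_sdiff_of_subset TI]) p
    have w : ∀ x ∈ B χ (T ∪ V), x ∈ W := fun x hx => subset_span ⟨_, Finset.union_subset TI
      (a.trans Finset.sdiff_subset), (Finset.card_union_le _ _).trans (by omega), hx⟩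
    have := sub_mem (w (ρ + (∑ i, |ρ i|) • m') ⟨fun i => ?_, fun i hi => ?_, ?_⟩)
      (smul_mem _ (∑ i, |ρ i|) (w _ c))
    · simpa using this
    · have s1 := Finset.single_le_sum (f := fun i => |ρ i|) (fun _ _ => abs_nonneg _) (Finset.mem_univ i)
      change 0 ≤ ρ i + (∑ i, |ρ i|) * m' i
      by_cases e : i ∈ T
      · nlinarith [d i e, neg_abs_le (ρ i), abs_nonneg (ρ i)]
      · rw [h1 i e] at s1 ⊢; nlinarith [c.1 i, abs_nonneg (0 : ℤ)]
    · change ρ i + (∑ i, |ρ i|) * m' i = 0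
      rw [c.2.1 i hi, h1 i fun e => hi (Finset.mem_union_left _ e)]; simp
    · change L _ = 0
      rw [map_add, map_smul, h2, show L m' = 0 from c.2.2]; simp
  by_contra h0
  obtain ⟨p, hp, hd⟩ := Nat.exists_prime_and_dvd (mt (AddMonoid.addOrderOf_eq_one_iff (x := W.mkQ m)).1
    (mt (Quotient.mk_eq_zero W).1 h0))
  let π : (ℕ → ℤ) →ₗ[ℤ] X := ∑ i : Fin r, (LinearMap.proj (i : ℕ)).smulRight (v i)
  obtain ⟨t, a, b, q, c, d⟩ := loc p hp r {x | (∀ i ≥ r, x i = 0) ∧ ∃ j, 0 < m j ∧ π x = χ j} fun s hs => hs.1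
  have : ∀ x : t, ∃ j, 0 < m j ∧ π x = χ j := fun x => (a x.2).2
  choose j hj using this
  set J := Finset.univ.image j
  have hJ : J.card ≤ r := Finset.card_image_le.trans (by simpa using b)
  have pJ : ∀ i ∈ J, 0 < m i := fun i hi => by
    obtain ⟨x, -, rfl⟩ := Finset.mem_image.1 hi; exact (hj x).1
  let S : Submodule ℤ (Fin n → ℤ) := ⨅ i ∉ J, LinearMap.ker (LinearMap.proj i)
  have mS : ∀ x, x ∈ S ↔ ∀ i ∉ J, x i = 0 := fun x => by simp [S]
  have e : ∀ i, ∃ y ∈ S, L y = m i • q • χ i ∧ m i • (q • Pi.single i 1 : Fin n → ℤ) - y ∈ W := fun i => by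
    rcases (hm.1 i).eq_or_lt with h | h
    · exact ⟨0, zero_mem _, by simp [← h], by simp [← h]⟩
    obtain ⟨y, hy⟩ := (mem_span_range_iff_exists_fun ℤ).1 (hv ▸ mem_top : χ i ∈ span ℤ (Set.range v))
    let x : ℕ → ℤ := fun m => if h : m < r then y ⟨m, h⟩ else 0
    have hx : π x = χ i := by simp [π, x, ← hy]
    have h3 : span ℤ (t : Set (ℕ → ℤ)) ≤ (S.map L).comap π := span_le.2 fun z hz =>
      ⟨Pi.single (j ⟨z, hz⟩) 1, (mS _).2 fun k hk => Pi.single_eq_of_ne (by rintro rfl; simp [J] at hk) _,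
        by simp [L, (hj ⟨z, hz⟩).2.symm]⟩
    obtain ⟨y, y1, y2⟩ := h3 (d x ⟨fun m hm => dif_neg (by omega), i, h, hx⟩)
    rw [map_smul, hx] at y2
    refine ⟨m i • y, smul_mem _ _ y1, by rw [map_smul, y2], ?_⟩
    rw [← smul_sub]
    refine smul_mem _ _ (D (insert i J) ((Finset.card_insert_le _ _).trans (by omega))
      (by simpa [h] using pJ) _ (fun k hk => ?_) (by rw [map_sub, y2, map_smul]; simp [L]))
    rw [Finset.mem_insert, not_or] at hk
    simp [hk.1, (mS _).1 y1 k hk.2]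
  choose y y1 y2 y3 using e
  refine c ((Int.natCast_dvd_natCast.2 hd).trans (addOrderOf_dvd_iff_zsmul_eq_zero.2 ?_))
  rw [← map_zsmul]
  refine (Quotient.mk_eq_zero W).2 ?_
  have := add_mem (sum_mem fun i (_ : i ∈ Finset.univ) => y3 i) (D J (by omega) pJ (∑ i, y i)
    ((mS _).1 (sum_mem fun i _ => y1 i)) (by
      simp only [map_sum, y2, smul_comm _ q, ← Finset.smul_sum, hm.2.2, smul_zero]))
  convert this using 1
  ext k
  simp [Pi.single_apply, mul_comm]

end Pool.Agent.Results.MP_7bc96b_al.Full
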